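import Mathlib

/-!
Combinatorial part: families of sets with no infinite antichain through a point.
-/

open Set

namespace Pool.Agent.P.MP_03f7b8_gt

universe u
variable {X : Type u}

/-- `A` is dominated by finitely many members of `U`. -/
def Dom (U A : Set (Set X)) : Prop :=
  ∃ K ⊆ U, K.Finite ∧ ∀ a ∈ A, ∃ k ∈ K, a ⊆ k

/-- No infinite antichain of `G` has a common point. -/
def Fac (G : Set (Set X)) : Prop :=
  ∀ H ⊆ G, (∀ A ∈ H, ∀ B ∈ H, A ≠ B → ¬ A ⊆ B ∧ ¬ B ⊆ A) → (⋂₀ H).Nonempty → H.Finite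

lemma Dom.mono {U A B : Set (Set X)} (h : Dom U B) (hAB : A ⊆ B) : Dom U A := by
  obtain ⟨K, hKU, hK, h⟩ := h
  exact ⟨K, hKU, hK, fun a ha => h a (hAB ha)⟩

lemma dom_empty (U : Set (Set X)) : Dom U ∅ :=
  ⟨∅, empty_subset _, finite_empty, by simp⟩

lemma Dom.union {U A B : Set (Set X)} (hA : Dom U A) (hB : Dom U B) : Dom U (A ∪ B) := by
  obtain ⟨K, hKU, hK, h⟩ := hA
  obtain ⟨L, hLU, hL, h'⟩ := hB
  refine ⟨K ∪ L, union_subset hKU hLU, hK.union hL, ?_⟩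
  rintro a (ha | ha)
  · obtain ⟨k, hk, hak⟩ := h a ha
    exact ⟨k, Or.inl hk, hak⟩
  · obtain ⟨k, hk, hak⟩ := h' a ha
    exact ⟨k, Or.inr hk, hak⟩

lemma dom_biUnion {ι : Type*} {U : Set (Set X)} (s : Finset ι) (f : ι → Set (Set X))
    (h : ∀ i ∈ s, Dom U (f i)) : Dom U (⋃ i ∈ s, f i) := by
  classical
  induction s using Finset.induction_on with
  | empty => simpa using dom_empty U
  | insert i s hi ih =>
    rw [Finset.set_biUnion_insert]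
    exact (h i (Finset.mem_insert_self _ _)).union
      (ih fun j hj => h j (Finset.mem_insert_of_mem hj))

lemma dom_down {U : Set (Set X)} {a u : Set X} (hu : u ∈ U) (hau : a ⊆ u) :
    Dom U {b | b ⊆ a} :=
  ⟨{u}, singleton_subset_iff.2 hu, finite_singleton _,
    fun _ hb => ⟨u, rfl, Subset.trans hb hau⟩⟩

lemma no_process {G A : Set (Set X)} (hG : Fac G) (hAG : A ⊆ G) {p : X} (hp : ∀ a ∈ A, p ∈ a)
    (h : ∀ s : Finset (Set X), (∀ a ∈ s, a ∈ A) →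
      ∃ b, b ∈ A ∧ ∀ a ∈ s, ¬ a ⊆ b ∧ ¬ b ⊆ a) : False := by
  obtain ⟨f, hf, hr⟩ := exists_seq_of_forall_finset_exists (fun a => a ∈ A)
    (fun a b => ¬ a ⊆ b ∧ ¬ b ⊆ a) h
  have hne : ∀ m n, m ≠ n → ¬ f m ⊆ f n ∧ ¬ f n ⊆ f m := by
    intro m n hmn
    rcases lt_or_gt_of_ne hmn with h1 | h1
    · exact hr m n h1
    · exact (hr n m h1).symm
  have hinj : Function.Injective f := by
    intro m n hmn
    by_contra h1
    exact (hne m n h1).1 (hmn ▸ Subset.rfl)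
  refine infinite_range_of_injective hinj (hG (range f) ?_ ?_ ⟨p, ?_⟩)
  · rintro _ ⟨n, rfl⟩
    exact hAG (hf n)
  · rintro _ ⟨m, rfl⟩ _ ⟨n, rfl⟩ hmn
    exact hne m n (fun h1 => hmn (h1 ▸ rfl))
  · rintro _ ⟨n, rfl⟩
    exact hp _ (hf n)

/-- A large set with small fibres has a large subset with small initial segments. -/
lemma exists_initial {α β : Type*} [LinearOrder β] [WellFoundedLT β] (S : Set α → Prop)
    (hmono : ∀ A B, S B → A ⊆ B → S A) (hun : ∀ A B, S A → S B → S (A ∪ B))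
    (g : α → β) (A : Set α) (hA : ¬ S A) (hfib : ∀ c, S {a ∈ A | g a = c}) :
    ∃ A' ⊆ A, ¬ S A' ∧ ∀ a₀ ∈ A', S {a ∈ A' | g a ≤ g a₀} := by
  by_cases h : ∀ c, S {a ∈ A | g a ≤ c}
  · exact ⟨A, Subset.rfl, hA, fun a₀ _ => h _⟩
  · push Not at h
    obtain ⟨c, hc, hmin⟩ := (wellFounded_lt (α := β)).has_min {c | ¬ S {a ∈ A | g a ≤ c}} h
    refine ⟨{a ∈ A | g a < c}, fun a ha => ha.1, ?_, ?_⟩
    · intro hS
      apply hc
      refine hmono _ _ (hun _ _ hS (hfib c)) ?_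
      rintro a ⟨ha, hac⟩
      rcases lt_or_eq_of_le hac with h1 | h1
      · exact Or.inl ⟨ha, h1⟩
      · exact Or.inr ⟨ha, h1⟩
    · intro a₀ ha₀
      have h1 : S {a ∈ A | g a ≤ g a₀} := by
        by_contra h2
        exact hmin _ h2 ha₀.2
      exact hmono _ _ h1 (fun a ha => ⟨ha.1.1, ha.2⟩)

section
variable {β : Type*} [LinearOrder β] [WellFoundedLT β]

/-- Only finitely many values of an antitone rank carry a large family through `p`. -/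
lemma finite_large {G U A : Set (Set X)} (hG : Fac G) (hAG : A ⊆ G) {p : X}
    (hp : ∀ a ∈ A, p ∈ a) (hAU : ∀ a ∈ A, ∃ u ∈ U, a ⊆ u)
    (m : Set X → β) (hm : ∀ a ∈ A, ∀ b ∈ A, a ⊆ b → m b ≤ m a) :
    {c | ¬ Dom U {a ∈ A | m a = c}}.Finite := by
  by_contra hinf
  obtain ⟨T, hTF, hT, hTi⟩ := exists_initial (fun s : Set β => s.Finite)
    (fun A B hB hAB => hB.subset hAB) (fun A B hA hB => hA.union hB) id _ hinf
    (fun c => (finite_singleton c).subset (fun a ha => ha.2))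
  refine no_process hG (A := {a ∈ A | m a ∈ T}) (fun a ha => hAG ha.1) (fun a ha => hp a ha.1) ?_
  intro s hs
  have h1 : (⋃ a ∈ s, {c ∈ T | id c ≤ id (m a)}).Finite :=
    s.finite_toSet.biUnion (fun a ha => hTi _ (hs a ha).2)
  obtain ⟨c, hcT, hc⟩ := Set.Infinite.exists_notMem_finite hT h1
  have h2 : Dom U (⋃ a ∈ s, {b | b ⊆ a}) := by
    refine dom_biUnion s _ (fun a ha => ?_)
    obtain ⟨u, hu, hau⟩ := hAU a (hs a ha).1
    exact dom_down hu hau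
  have h3 : ¬ {a ∈ A | m a = c} ⊆ ⋃ a ∈ s, {b | b ⊆ a} := fun h => hTF hcT (h2.mono h)
  obtain ⟨b, hb, hbs⟩ := not_subset.1 h3
  refine ⟨b, ⟨hb.1, hb.2 ▸ hcT⟩, fun a ha => ⟨fun hab => ?_, fun hba => ?_⟩⟩
  · apply hc
    refine mem_biUnion ha ⟨hcT, ?_⟩
    have := hm a (hs a ha).1 b hb.1 hab
    simpa [hb.2] using this
  · exact hbs (mem_biUnion ha hba)

/-- A large family through `p` has a large fibre of an antitone rank. -/
lemma exists_large_fibre {G U A : Set (Set X)} (hG : Fac G) (hAG : A ⊆ G) {p : X}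
    (hp : ∀ a ∈ A, p ∈ a) (hAU : ∀ a ∈ A, ∃ u ∈ U, a ⊆ u)
    (m : Set X → β) (hm : ∀ a ∈ A, ∀ b ∈ A, a ⊆ b → m b ≤ m a) (hA : ¬ Dom U A) :
    ∃ c, ¬ Dom U {a ∈ A | m a = c} := by
  by_contra hfib
  push Not at hfib
  obtain ⟨A', hA'A, hA', hi⟩ := exists_initial (Dom U)
    (fun A B hB hAB => hB.mono hAB) (fun A B hA hB => hA.union hB) m A hA hfib
  refine no_process hG (A := A') (fun a ha => hAG (hA'A ha)) (fun a ha => hp a (hA'A ha)) ?_
  intro s hs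
  have h2 : Dom U (⋃ a ∈ s, ({b | b ⊆ a} ∪ {b ∈ A' | m b ≤ m a})) := by
    refine dom_biUnion s _ (fun a ha => ?_)
    obtain ⟨u, hu, hau⟩ := hAU a (hA'A (hs a ha))
    exact (dom_down hu hau).union (hi a (hs a ha))
  have h3 : ¬ A' ⊆ ⋃ a ∈ s, ({b | b ⊆ a} ∪ {b ∈ A' | m b ≤ m a}) := fun h => hA' (h2.mono h)
  obtain ⟨b, hb, hbs⟩ := not_subset.1 h3
  refine ⟨b, hb, fun a ha => ⟨fun hab => ?_, fun hba => ?_⟩⟩
  · exact hbs (mem_biUnion ha (Or.inr ⟨hb, hm a (hA'A (hs a ha)) b (hA'A hb) hab⟩))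
  · exact hbs (mem_biUnion ha (Or.inl hba))

end

/-- A large family through `p` has a member with a large family of supersets. -/
lemma exists_large_up {G U A : Set (Set X)} (hG : Fac G) (hAG : A ⊆ G) {p : X}
    (hp : ∀ a ∈ A, p ∈ a) (hAU : ∀ a ∈ A, ∃ u ∈ U, a ⊆ u) (hA : ¬ Dom U A) :
    ∃ b ∈ A, ¬ Dom U {a ∈ A | b ⊆ a} := by
  by_contra hup
  push Not at hup
  refine no_process hG hAG hp ?_
  intro s hs
  have h2 : Dom U (⋃ a ∈ s, ({b | b ⊆ a} ∪ {b ∈ A | a ⊆ b})) := by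
    refine dom_biUnion s _ (fun a ha => ?_)
    obtain ⟨u, hu, hau⟩ := hAU a (hs a ha)
    exact (dom_down hu hau).union (hup a (hs a ha))
  have h3 : ¬ A ⊆ ⋃ a ∈ s, ({b | b ⊆ a} ∪ {b ∈ A | a ⊆ b}) := fun h => hA (h2.mono h)
  obtain ⟨b, hb, hbs⟩ := not_subset.1 h3
  refine ⟨b, hb, fun a ha => ⟨fun hab => ?_, fun hba => ?_⟩⟩
  · exact hbs (mem_biUnion ha (Or.inr ⟨hb, hab⟩))
  · exact hbs (mem_biUnion ha (Or.inl hba))

end Pool.Agent.P.MP_03f7b8_gt
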