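import Pool.Agent.P.MP_03f7b8_gt.Comb

/-!
Topological part: pointwise W-refinements, and from them point-finite refinements.
-/

open Set TopologicalSpace

namespace Pool.Agent.P.MP_03f7b8_gt

universe u
variable {X : Type u} [TopologicalSpace X]

/-- `V` is an open cover. -/
def OCov (V : Set (Set X)) : Prop := (∀ v ∈ V, IsOpen v) ∧ ⋃₀ V = univ

lemma OCov.mem {V : Set (Set X)} (h : OCov V) (x : X) : ∃ v ∈ V, x ∈ v := by
  have : x ∈ ⋃₀ V := h.2 ▸ mem_univ x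
  exact this

/-- Every open cover has an open pointwise W-refinement. -/
theorem exists_wref {G : Set (Set X)} (hb : IsTopologicalBasis G) (hG : Fac G)
    (hc : ∀ x : X, IsCompact (closure {x})) {U : Set (Set X)} (hU : OCov U) :
    ∃ V, OCov V ∧ ∀ p, Dom U {v ∈ V | p ∈ v} := by
  classical
  let e : X ↪ Cardinal.{u} := embeddingToCardinal
  let m : Set X → Cardinal.{u} := fun a => sInf (e '' a)
  have hm_mem : ∀ a : Set X, a.Nonempty → ∃ w ∈ a, e w = m a := fun a ha =>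
    csInf_mem (ha.image e)
  have hm : ∀ a b : Set X, a.Nonempty → a ⊆ b → m b ≤ m a := fun a b ha hab =>
    csInf_le_csInf' (ha.image e) (image_mono hab)
  let G' : Set (Set X) := {a ∈ G | ∃ u ∈ U, a ⊆ u}
  let F : X → Set X := fun p => {w | ¬ Dom U {a ∈ {a ∈ G' | p ∈ a} | m a = e w}}
  have hF : ∀ p, (F p).Finite := by
    intro p
    have := finite_large (U := U) (A := {a ∈ G' | p ∈ a}) hG (fun a ha => ha.1.1)
      (fun a ha => ha.2) (fun a ha => ha.1.2) m (fun a ha b _ hab => hm a b ⟨p, ha.2⟩ hab)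
    exact this.preimage (f := e) e.injective.injOn
  have hE : ∀ w : X, ∃ E ⊆ U, E.Finite ∧ closure {w} ⊆ ⋃₀ E := by
    intro w
    obtain ⟨E, hEU, hEf, hcov⟩ := (hc w).elim_finite_subcover_image (b := U) (c := id)
      (fun u hu => hU.1 u hu) (fun x _ => by
        obtain ⟨v, hv, hx⟩ := hU.mem x
        exact mem_biUnion hv hx)
    refine ⟨E, hEU, hEf, fun x hx => ?_⟩
    obtain ⟨v, hv, hxv⟩ := mem_iUnion₂.1 (hcov hx)
    exact ⟨v, hv, hxv⟩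
  choose E hEU hEf hEc using hE
  have hN : ∀ x w : X, ∃ n : Set X, IsOpen n ∧ x ∈ n ∧ (w ∉ n ∨ n ∈ E w) := by
    intro x w
    by_cases hx : x ∈ closure ({w} : Set X)
    · obtain ⟨v, hv, hxv⟩ := hEc w hx
      exact ⟨v, hU.1 v (hEU w hv), hxv, Or.inr hv⟩
    · exact ⟨(closure {w})ᶜ, isClosed_closure.isOpen_compl, hx,
        Or.inl (fun h => h (subset_closure rfl))⟩
  choose N hNo hNx hNw using hN
  have hB : ∀ x : X, ∃ b ∈ G', x ∈ b ∧ ∀ w ∈ F x, b ⊆ N x w := by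
    intro x
    obtain ⟨u, hu, hxu⟩ := hU.mem x
    have ho : IsOpen (u ∩ ⋂ w ∈ F x, N x w) :=
      (hU.1 u hu).inter ((hF x).isOpen_biInter (fun w _ => hNo x w))
    obtain ⟨b, hbG, hxb, hsub⟩ := hb.exists_subset_of_mem_open
      (show x ∈ u ∩ ⋂ w ∈ F x, N x w from ⟨hxu, mem_iInter₂.2 (fun w _ => hNx x w)⟩) ho
    refine ⟨b, ⟨hbG, u, hu, fun y hy => (hsub hy).1⟩, hxb, fun w hw y hy => ?_⟩
    exact mem_iInter₂.1 (hsub hy).2 w hw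
  choose B hBG hBx hBN using hB
  refine ⟨range B, ⟨?_, ?_⟩, ?_⟩
  · rintro _ ⟨x, rfl⟩
    exact hb.isOpen (hBG x).1
  · exact eq_univ_of_forall (fun x => ⟨B x, ⟨x, rfl⟩, hBx x⟩)
  intro p
  by_contra hlarge
  have hAG' : ∀ a ∈ range B, a ∈ G' := by
    rintro _ ⟨x, rfl⟩
    exact hBG x
  obtain ⟨c, hc⟩ := exists_large_fibre (U := U) (A := {v ∈ range B | p ∈ v}) hG
    (fun a ha => (hAG' a ha.1).1) (fun a ha => ha.2) (fun a ha => (hAG' a ha.1).2) m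
    (fun a ha b _ hab => hm a b ⟨p, ha.2⟩ hab) hlarge
  have hne : {a ∈ {v ∈ range B | p ∈ v} | m a = c}.Nonempty := by
    rw [nonempty_iff_ne_empty]
    intro h
    exact hc (h ▸ dom_empty U)
  obtain ⟨a₀, ha₀⟩ := hne
  obtain ⟨w, -, hw⟩ := hm_mem a₀ ⟨p, ha₀.1.2⟩
  have hcw : c = e w := by rw [hw, ha₀.2]
  have hwmem : ∀ a : Set X, p ∈ a → m a = c → w ∈ a := by
    intro a hpa hma
    obtain ⟨w', hw', hw''⟩ := hm_mem a ⟨p, hpa⟩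
    have : w' = w := e.injective (by rw [hw'', hma, hcw])
    exact this ▸ hw'
  let A₁ : Set (Set X) := {a | p ∈ a ∧ m a = c ∧ ∃ x, B x = a ∧ w ∈ F x}
  let A₂ : Set (Set X) := {a | p ∈ a ∧ m a = c ∧ ∃ x, B x = a ∧ w ∉ F x}
  have hA₁ : Dom U A₁ := by
    refine ⟨E w, hEU w, hEf w, ?_⟩
    rintro _ ⟨hpa, hma, x, rfl, hwx⟩
    rcases hNw x w with h | h
    · exact absurd (hBN x w hwx (hwmem _ hpa hma)) h
    · exact ⟨N x w, h, hBN x w hwx⟩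
  have hA₂ : ¬ Dom U A₂ := by
    intro h
    refine hc ((hA₁.union h).mono ?_)
    rintro _ ⟨⟨⟨x, rfl⟩, hpa⟩, hma⟩
    by_cases hwx : w ∈ F x
    · exact Or.inl ⟨hpa, hma, x, rfl, hwx⟩
    · exact Or.inr ⟨hpa, hma, x, rfl, hwx⟩
  have hA₂G : ∀ a ∈ A₂, a ∈ G' := by
    rintro _ ⟨-, -, x, rfl, -⟩
    exact hBG x
  obtain ⟨_, ⟨-, -, x, rfl, hwx⟩, hup⟩ := exists_large_up (U := U) (A := A₂) hG
    (fun a ha => (hA₂G a ha).1) (fun a ha => ha.1) (fun a ha => (hA₂G a ha).2) hA₂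
  apply hwx
  intro h
  refine hup (h.mono ?_)
  rintro a ⟨ha, hBa⟩
  exact ⟨⟨hA₂G a ha, hBa (hBx x)⟩, by rw [ha.2.1, hcw]⟩

/-- Increasing countable open covers have point-finite shrinkings. -/
theorem exists_pf_seq (hW : ∀ U : Set (Set X), OCov U → ∃ V, OCov V ∧ ∀ p, Dom U {v ∈ V | p ∈ v})
    (O : ℕ → Set X) (hO : ∀ n, IsOpen (O n)) (hmono : Monotone O) (hcov : ∀ x, ∃ n, x ∈ O n) :
    ∃ P : ℕ → Set X, (∀ n, IsOpen (P n)) ∧ (∀ n, P n ⊆ O n) ∧ (∀ x, ∃ n, x ∈ P n) ∧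
      ∀ x, {n | x ∈ P n}.Finite := by
  classical
  obtain ⟨V, hV, hdom⟩ := hW (range O) ⟨by rintro _ ⟨n, rfl⟩; exact hO n,
    eq_univ_of_forall (fun x => by
      obtain ⟨n, hn⟩ := hcov x
      exact ⟨O n, ⟨n, rfl⟩, hn⟩)⟩
  have hbd : ∀ x, ∃ N, ∀ v ∈ V, x ∈ v → v ⊆ O N := by
    intro x
    obtain ⟨K, hKU, hK, h⟩ := hdom x
    choose! g hg using (fun k (hk : k ∈ K) => hKU hk)
    obtain ⟨N, hN⟩ := (hK.image g).bddAbove
    refine ⟨N, fun v hv hx => ?_⟩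
    obtain ⟨k, hk, hvk⟩ := h v ⟨hv, hx⟩
    exact hvk.trans (hg k hk ▸ hmono (hN ⟨k, hk, rfl⟩))
  refine ⟨fun n => ⋃₀ {v ∈ V | v ⊆ O n ∧ ∀ j < n, ¬ v ⊆ O j}, ?_, ?_, ?_, ?_⟩
  · exact fun n => isOpen_sUnion (fun v hv => hV.1 v hv.1)
  · exact fun n => sUnion_subset (fun v hv => hv.2.1)
  · intro x
    obtain ⟨v, hv, hx⟩ := hV.mem x
    obtain ⟨N, hN⟩ := hbd x
    have hex : ∃ n, v ⊆ O n := ⟨N, hN v hv hx⟩
    exact ⟨Nat.find hex, v, ⟨hv, Nat.find_spec hex, fun j hj => Nat.find_min hex hj⟩, hx⟩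
  · intro x
    obtain ⟨N, hN⟩ := hbd x
    refine (finite_le_nat N).subset ?_
    rintro n ⟨v, ⟨hv, -, hmin⟩, hx⟩
    by_contra hn
    exact hmin N (not_le.1 hn) (hN v hv hx)

/-- The argument of Worrell: pointwise W-refinements give point-finite refinements. -/
theorem exists_pf (hW : ∀ U : Set (Set X), OCov U → ∃ V, OCov V ∧ ∀ p, Dom U {v ∈ V | p ∈ v})
    {U : Set (Set X)} (hU : OCov U) :
    ∃ V, OCov V ∧ (∀ v ∈ V, ∃ u ∈ U, v ⊆ u) ∧ ∀ x, {v ∈ V | x ∈ v}.Finite := by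
  classical
  choose nxt hnxt hdom using hW
  let S : ℕ → {V : Set (Set X) // OCov V} := fun n =>
    Nat.rec ⟨U, hU⟩ (fun _ V => ⟨nxt V.1 V.2, hnxt V.1 V.2⟩) n
  let W : ℕ → Set (Set X) := fun n => (S n).1
  have hWo : ∀ n, OCov (W n) := fun n => (S n).2
  have hW0 : W 0 = U := rfl
  have hWd : ∀ n p, Dom (W n) {v ∈ W (n + 1) | p ∈ v} := fun n p => hdom (S n).1 (S n).2 p
  have href : ∀ n, ∀ v ∈ W n, v.Nonempty → ∃ u ∈ U, v ⊆ u := by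
    intro n
    induction n with
    | zero => exact fun v hv _ => ⟨v, hv, Subset.rfl⟩
    | succ n ih =>
      rintro v hv ⟨p, hp⟩
      obtain ⟨K, hK, -, h⟩ := hWd n p
      obtain ⟨k, hk, hvk⟩ := h v ⟨hv, hp⟩
      obtain ⟨u, hu, hku⟩ := ih k (hK hk) ⟨p, hvk hp⟩
      exact ⟨u, hu, hvk.trans hku⟩
  let e : Set X ↪ Cardinal.{u} := embeddingToCardinal
  let al : Set X → Cardinal.{u} := fun v => sInf (e '' {u ∈ U | v ⊆ u})
  have hal_mem : ∀ v : Set X, (∃ u ∈ U, v ⊆ u) → ∃ u ∈ U, v ⊆ u ∧ e u = al v := by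
    rintro v ⟨u, hu, hvu⟩
    obtain ⟨u', hu', h⟩ : al v ∈ e '' {u ∈ U | v ⊆ u} := csInf_mem ⟨e u, u, ⟨hu, hvu⟩, rfl⟩
    exact ⟨u', hu'.1, hu'.2, h⟩
  have hal : ∀ v w : Set X, (∃ u ∈ U, w ⊆ u) → v ⊆ w → al v ≤ al w := by
    rintro v w ⟨u, hu, hwu⟩ hvw
    exact csInf_le_csInf' ⟨e u, u, ⟨hu, hwu⟩, rfl⟩
      (image_mono (fun u' hu' => ⟨hu'.1, hvw.trans hu'.2⟩))
  have hmu : ∀ n x, ∃ k ∈ W n, x ∈ k ∧ ∀ v ∈ W (n + 1), x ∈ v → al v ≤ al k := by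
    intro n x
    obtain ⟨K, hK, hKf, h⟩ := hWd n x
    obtain ⟨v₀, hv₀, hx₀⟩ := (hWo (n + 1)).mem x
    obtain ⟨k₀, hk₀, hvk₀⟩ := h v₀ ⟨hv₀, hx₀⟩
    obtain ⟨k, hk, hmax⟩ := Set.exists_max_image {k ∈ K | x ∈ k} al
      (hKf.subset (fun k hk => hk.1)) ⟨k₀, hk₀, hvk₀ hx₀⟩
    refine ⟨k, hK hk.1, hk.2, fun v hv hx => ?_⟩
    obtain ⟨k', hk', hvk'⟩ := h v ⟨hv, hx⟩
    exact (hal v k' (href n k' (hK hk') ⟨x, hvk' hx⟩) hvk').trans (hmax k' ⟨hk', hvk' hx⟩)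
  choose k hkW hkx hkmax using hmu
  let T : ℕ → Set (Set X) := fun n =>
    {v ∈ W (n + 1) | v.Nonempty ∧ ∀ w ∈ W n, v ⊆ w → al w = al v}
  have hTcov : ∀ x, ∃ n, ∃ v ∈ T n, x ∈ v := by
    intro x
    obtain ⟨_, ⟨n, rfl⟩, hmin⟩ := (wellFounded_lt (α := Cardinal.{u})).has_min
      (range fun n => al (k n x)) (range_nonempty _)
    have h1 : al (k n x) ≤ al (k (n + 2) x) := not_lt.1 (hmin _ ⟨n + 2, rfl⟩)
    refine ⟨n + 1, k (n + 2) x, ⟨hkW (n + 2) x, ⟨x, hkx (n + 2) x⟩, fun w hw hsub => ?_⟩, hkx (n + 2) x⟩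
    have hxw : x ∈ w := hsub (hkx (n + 2) x)
    exact le_antisymm ((hkmax n x w hw hxw).trans h1) (hal _ _ (href (n + 1) w hw ⟨x, hxw⟩) hsub)
  let Gs : ℕ → Cardinal.{u} → Set X := fun n c => ⋃₀ {v ∈ T n | al v = c}
  have hGo : ∀ n c, IsOpen (Gs n c) := fun n c =>
    isOpen_sUnion (fun v hv => (hWo (n + 1)).1 v hv.1.1)
  have hGf : ∀ n x, {c | x ∈ Gs n c}.Finite := by
    intro n x
    obtain ⟨K, hK, hKf, h⟩ := hWd n x
    refine (hKf.image al).subset ?_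
    rintro c ⟨v, ⟨hv, hc⟩, hx⟩
    obtain ⟨k', hk', hvk'⟩ := h v ⟨hv.1, hx⟩
    exact ⟨k', hk', by rw [hv.2.2 k' (hK hk') hvk', hc]⟩
  have hGU : ∀ n c, (Gs n c).Nonempty → ∃ u ∈ U, Gs n c ⊆ u := by
    rintro n c ⟨x, v, ⟨hv, hc⟩, hx⟩
    obtain ⟨u, hu, -, hue⟩ := hal_mem v (href (n + 1) v hv.1 hv.2.1)
    refine ⟨u, hu, sUnion_subset ?_⟩
    rintro v' ⟨hv', hc'⟩
    obtain ⟨u', -, hvu', hue'⟩ := hal_mem v' (href (n + 1) v' hv'.1 hv'.2.1)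
    have : u' = u := e.injective (by rw [hue', hue, hc', hc])
    exact this ▸ hvu'
  let O : ℕ → Set X := fun n => ⋃ j ≤ n, ⋃ c, Gs j c
  obtain ⟨P, hPo, hPO, hPc, hPf⟩ := exists_pf_seq (fun U hU => ⟨nxt U hU, hnxt U hU, hdom U hU⟩) O
    (fun n => isOpen_biUnion (fun j _ => isOpen_iUnion (fun c => hGo j c)))
    (fun a b hab => biUnion_subset_biUnion_left (fun j (hj : j ≤ a) => hj.trans hab))
    (fun x => by
      obtain ⟨n, v, hv, hx⟩ := hTcov x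
      exact ⟨n, mem_biUnion (show n ∈ {j | j ≤ n} from (le_refl n : n ≤ n))
        (mem_iUnion.2 ⟨al v, v, ⟨hv, rfl⟩, hx⟩)⟩)
  refine ⟨{s | s.Nonempty ∧ ∃ n, ∃ j ≤ n, ∃ c, s = P n ∩ Gs j c}, ⟨?_, ?_⟩, ?_, ?_⟩
  · rintro _ ⟨-, n, j, -, c, rfl⟩
    exact (hPo n).inter (hGo j c)
  · refine eq_univ_of_forall (fun x => ?_)
    obtain ⟨n, hn⟩ := hPc x
    obtain ⟨j, hj, hx⟩ := mem_iUnion₂.1 (hPO n hn)
    obtain ⟨c, hc⟩ := mem_iUnion.1 hx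
    exact ⟨P n ∩ Gs j c, ⟨⟨x, hn, hc⟩, n, j, hj, c, rfl⟩, hn, hc⟩
  · rintro _ ⟨⟨x, hx⟩, n, j, -, c, rfl⟩
    obtain ⟨u, hu, hsub⟩ := hGU j c ⟨x, hx.2⟩
    exact ⟨u, hu, inter_subset_right.trans hsub⟩
  · intro x
    have hfin : (⋃ n ∈ {n | x ∈ P n}, ⋃ j ∈ {j | j ≤ n},
        (fun c => P n ∩ Gs j c) '' {c | x ∈ Gs j c}).Finite :=
      (hPf x).biUnion (fun n _ => (finite_le_nat n).biUnion (fun j _ => (hGf j x).image _))
    refine hfin.subset ?_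
    rintro _ ⟨⟨-, n, j, hj, c, rfl⟩, hx⟩
    exact mem_biUnion (show n ∈ {n | x ∈ P n} from hx.1)
      (mem_biUnion (show j ∈ {j | j ≤ n} from hj) ⟨c, hx.2, rfl⟩)

/-- In a metacompact space closures of points are compact. -/
theorem isCompact_closure_singleton
    (h : ∀ U : Set (Set X), OCov U →
      ∃ V, OCov V ∧ (∀ v ∈ V, ∃ u ∈ U, v ⊆ u) ∧ ∀ x, {v ∈ V | x ∈ v}.Finite) (x : X) :
    IsCompact (closure ({x} : Set X)) := by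
  classical
  refine isCompact_of_finite_subcover ?_
  intro ι c hc hcov
  have hO : OCov (insert (closure ({x} : Set X))ᶜ (range c)) := by
    constructor
    · rintro _ (rfl | ⟨i, rfl⟩)
      · exact isClosed_closure.isOpen_compl
      · exact hc i
    · refine eq_univ_of_forall (fun y => ?_)
      by_cases hy : y ∈ closure ({x} : Set X)
      · obtain ⟨i, hi⟩ := mem_iUnion.1 (hcov hy)
        exact ⟨c i, Or.inr ⟨i, rfl⟩, hi⟩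
      · exact ⟨_, Or.inl rfl, hy⟩
  obtain ⟨V, hV, href, hfin⟩ := h _ hO
  have hch : ∀ v ∈ {v ∈ V | x ∈ v}, ∃ i, v ⊆ c i := by
    rintro v ⟨hv, hx⟩
    obtain ⟨u, hu | ⟨i, rfl⟩, hvu⟩ := href v hv
    · have h1 : x ∈ (closure ({x} : Set X))ᶜ := hu ▸ hvu hx
      exact absurd (subset_closure (mem_singleton x)) h1
    · exact ⟨i, hvu⟩
  have : Finite {v ∈ V | x ∈ v} := hfin x
  choose g hg using hch
  refine ⟨(finite_range (fun v : {v ∈ V | x ∈ v} => g v.1 v.2)).toFinset, fun y hy => ?_⟩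
  obtain ⟨v, hv, hyv⟩ := hV.mem y
  have hx : x ∈ v := by
    obtain ⟨z, hz, rfl⟩ := mem_closure_iff.1 hy v (hV.1 v hv) hyv
    exact hz
  refine mem_iUnion₂.2 ⟨g v ⟨hv, hx⟩, ?_, hg v ⟨hv, hx⟩ hyv⟩
  simp only [Finite.mem_toFinset, mem_range]
  exact ⟨⟨v, hv, hx⟩, rfl⟩

end Pool.Agent.P.MP_03f7b8_gt
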